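import Pool.Agent.Work.MP_495a89_gro.B_CMP

/-!
# MP_495a89_nt, 2-adic form: Mertens' product over `w` primes
-/

set_option autoImplicit false

namespace Pool.V2

open Finset Pool.GRO

theorem split (hSQP : S_SQP) (n y : ℕ) (hy : 1 ≤ y) :
    ∏ p ∈ n.primeFactors, (1 - 1 / (p : ℝ))⁻¹ ≤
      VP y * Real.exp ((n.primeFactors.card : ℝ) / y + 1 / y) := by
  classical
  have hA : ∀ p ∈ n.primeFactors, p.Prime := fun p hp => Nat.prime_of_mem_primeFactors hp
  have hy0 : (0 : ℝ) < y := by exact_mod_cast hy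
  have h1 : ∏ p ∈ n.primeFactors, (1 - 1 / (p : ℝ))⁻¹ =
      (∏ p ∈ n.primeFactors.filter (fun p => p ≤ y), (1 - 1 / (p : ℝ))⁻¹) *
      ∏ p ∈ n.primeFactors.filter (fun p => ¬ p ≤ y), (1 - 1 / (p : ℝ))⁻¹ :=
    (Finset.prod_filter_mul_prod_filter_not _ _ _).symm
  have h2 : ∏ p ∈ n.primeFactors.filter (fun p => p ≤ y), (1 - 1 / (p : ℝ))⁻¹ ≤ VP y := by
    unfold VP
    apply CMP_sub
    · intro p hp
      rw [mem_filter] at hp
      simp only [Pr, mem_filter, mem_Ioc]
      exact ⟨⟨(hA p hp.1).pos, hp.2⟩, hA p hp.1⟩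
    · intro p hp
      simp only [Pr, mem_filter] at hp
      exact CMP_one_le hp.2
  obtain ⟨s1, -⟩ := hSQP (n.primeFactors.filter (fun p => ¬ p ≤ y)) y hy (by
    intro p hp
    rw [mem_filter] at hp
    exact ⟨hA p hp.1, by omega⟩)
  have h3 : ∑ p ∈ n.primeFactors.filter (fun p => ¬ p ≤ y), 1 / (p : ℝ) ≤
      (n.primeFactors.card : ℝ) / y := by
    calc _ ≤ ∑ p ∈ n.primeFactors.filter (fun p => ¬ p ≤ y), 1 / (y : ℝ) := by
          apply Finset.sum_le_sum
          intro p hp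
          rw [mem_filter] at hp
          have : (y : ℝ) ≤ p := by
            have : y ≤ p := by omega
            exact_mod_cast this
          exact one_div_le_one_div_of_le hy0 this
      _ = ((n.primeFactors.filter (fun p => ¬ p ≤ y)).card : ℝ) / y := by
          rw [Finset.sum_const, nsmul_eq_mul]
          ring
      _ ≤ _ := by
          have : (n.primeFactors.filter (fun p => ¬ p ≤ y)).card ≤ n.primeFactors.card :=
            Finset.card_filter_le _ _
          have : ((n.primeFactors.filter (fun p => ¬ p ≤ y)).card : ℝ) ≤ n.primeFactors.card := by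
            exact_mod_cast this
          gcongr
  have hpos : 0 ≤ ∏ p ∈ n.primeFactors.filter (fun p => ¬ p ≤ y), (1 - 1 / (p : ℝ))⁻¹ := by
    apply Finset.prod_nonneg
    intro p hp
    rw [mem_filter] at hp
    linarith [CMP_one_le (hA p hp.1)]
  have hV : 0 ≤ VP y := by
    unfold VP
    apply Finset.prod_nonneg
    intro p hp
    simp only [Pr, mem_filter] at hp
    linarith [CMP_one_le hp.2]
  rw [h1]
  refine mul_le_mul h2 (s1.trans ?_) hpos hV
  exact Real.exp_le_exp.2 (by linarith)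

/-- `∏_{p ∣ n} (1 - 1/p)⁻¹ ≤ (e^γ + ε) log ω(n)` if `ω(n)` is large -/
theorem mer (hSQP : S_SQP) (hM3S : S_M3S) (ε : ℝ) (hε : 0 < ε) : ∃ w0 : ℕ, ∀ n : ℕ,
    w0 ≤ n.primeFactors.card → ∏ p ∈ n.primeFactors, (1 - 1 / (p : ℝ))⁻¹ ≤
      (Real.exp Real.eulerMascheroniConstant + ε) * Real.log n.primeFactors.card := by
  set G : ℝ := Real.exp Real.eulerMascheroniConstant with hG
  have hG0 : 0 < G := Real.exp_pos _
  -- choice of `M`
  obtain ⟨M, hM1, hM⟩ : ∃ M : ℕ, 1 ≤ M ∧ G * Real.exp (2 / M) ≤ G + ε / 2 := by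
    have h1 : Filter.Tendsto (fun M : ℕ => G * Real.exp (2 / (M : ℝ))) Filter.atTop
        (nhds (G * Real.exp 0)) := by
      apply Filter.Tendsto.const_mul
      exact (Real.continuous_exp.tendsto 0).comp (tendsto_const_div_atTop_nhds_zero_nat 2)
    rw [Real.exp_zero, mul_one] at h1
    have h2 := (h1.eventually (eventually_lt_nhds (show G < G + ε / 2 by linarith))).and
      (Filter.eventually_ge_atTop 1)
    obtain ⟨M, h3, h4⟩ := h2.exists
    exact ⟨M, h4, h3.le⟩
  obtain ⟨w1, hw1⟩ := hM3S 1 one_pos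
  have hev : ∀ᶠ w : ℕ in Filter.atTop, 2 * (G + ε / 2) * (Real.log M + 1) / ε ≤ Real.log w :=
    (Real.tendsto_log_atTop.comp tendsto_natCast_atTop_atTop).eventually_ge_atTop _
  obtain ⟨w2, hw2⟩ := Filter.eventually_atTop.1 hev
  refine ⟨max (max w1 w2) 1, fun n hn => ?_⟩
  set w := n.primeFactors.card with hw
  have a1 : w1 ≤ w := le_trans (le_trans (le_max_left _ _) (le_max_left _ _)) hn
  have a2 : w2 ≤ w := le_trans (le_trans (le_max_right _ _) (le_max_left _ _)) hn
  have a3 : 1 ≤ w := le_trans (le_max_right _ _) hn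
  have hw0 : (0 : ℝ) < w := by exact_mod_cast a3
  have hM0 : (0 : ℝ) < M := by exact_mod_cast hM1
  have hMw : 1 ≤ M * w := Nat.one_le_iff_ne_zero.2 (by positivity)
  have h1 := split hSQP n (M * w) hMw
  have h2 := hw1 (M * w) (by nlinarith)
  have h3 := hw2 w a2
  rw [← hG] at h2
  have e1 : Real.log ((M * w : ℕ) : ℝ) = Real.log M + Real.log w := by
    push_cast
    exact Real.log_mul hM0.ne' hw0.ne'
  rw [e1] at h2
  have e2 : (w : ℝ) / ((M * w : ℕ) : ℝ) + 1 / ((M * w : ℕ) : ℝ) ≤ 2 / M := by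
    push_cast
    have b1 : (w : ℝ) / (M * w) = 1 / M := by field_simp
    have b2 : 1 / ((M : ℝ) * w) ≤ 1 / M := by
      apply one_div_le_one_div_of_le hM0
      have : (1 : ℝ) ≤ w := by exact_mod_cast a3
      nlinarith
    rw [b1]
    calc (1 : ℝ) / M + 1 / (M * w) ≤ 1 / M + 1 / M := by linarith
      _ = 2 / M := by ring
  have hlw : 0 ≤ Real.log w := Real.log_nonneg (by exact_mod_cast a3)
  have hlM : 0 ≤ Real.log M := Real.log_nonneg (by exact_mod_cast hM1)
  have h4 : 2 * (G + ε / 2) * (Real.log M + 1) ≤ Real.log w * ε := by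
    rwa [div_le_iff₀ hε] at h3
  calc _ ≤ VP (M * w) * Real.exp ((w : ℝ) / ((M * w : ℕ) : ℝ) + 1 / ((M * w : ℕ) : ℝ)) := h1
    _ ≤ (G * (Real.log M + Real.log w + 1)) * Real.exp (2 / M) := by
        apply mul_le_mul h2 (Real.exp_le_exp.2 e2) (Real.exp_pos _).le
        positivity
    _ = (G * Real.exp (2 / M)) * (Real.log M + Real.log w + 1) := by ring
    _ ≤ (G + ε / 2) * (Real.log M + Real.log w + 1) := by
        apply mul_le_mul_of_nonneg_right hM
        positivity
    _ ≤ (G + ε) * Real.log w := by nlinarith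

end Pool.V2
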