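import Pool.Agent.Work.MP_495a89_v2.Two
import Pool.Agent.Work.MP_495a89_v2.Mer

/-!
# MP_495a89_nt, 2-adic form: the theorem from the blocks of MP_495a89_gro
-/

set_option autoImplicit false

namespace Pool.V2

open Finset Pool.GRO

theorem le_two_pow (n : ℕ) :
    ∏ p ∈ n.primeFactors, (1 - 1 / (p : ℝ))⁻¹ ≤ 2 ^ n.primeFactors.card := by
  rw [← Finset.prod_const]
  apply Finset.prod_le_prod
  · intro p hp
    linarith [CMP_one_le (Nat.prime_of_mem_primeFactors hp)]
  · intro p hp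
    have h2 : (2 : ℝ) ≤ p := by exact_mod_cast (Nat.prime_of_mem_primeFactors hp).two_le
    have h3 : 1 / (p : ℝ) ≤ 1 / 2 := one_div_le_one_div_of_le (by norm_num) h2
    rw [inv_le_comm₀ (by linarith) (by norm_num)]
    linarith

theorem main (hAUP : S_AUP) (hSQP : S_SQP) (hM3S : S_M3S) :
    ∀ ε : ℝ, 0 < ε → ∃ K : ℕ, ∀ n k : ℕ, n ≠ 0 → ∑ d ∈ n.divisors, d = k * n → K ≤ k →
      Real.exp ((Real.exp (-Real.eulerMascheroniConstant) - ε) * k) ≤ (W n : ℝ) := by
  intro ε' hε'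
  set G : ℝ := Real.exp Real.eulerMascheroniConstant with hG
  set g : ℝ := Real.exp (-Real.eulerMascheroniConstant) with hg
  have hG0 : 0 < G := Real.exp_pos _
  have hg0 : 0 < g := Real.exp_pos _
  have hGg : G * g = 1 := by
    rw [hG, hg, ← Real.exp_add, add_neg_cancel, Real.exp_zero]
  have hG1 : 1 ≤ G := Real.one_le_exp (by linarith [Real.one_half_lt_eulerMascheroniConstant])
  -- a smaller `ε`
  obtain ⟨ε, hε, hεε, hεg⟩ : ∃ ε : ℝ, 0 < ε ∧ ε ≤ ε' ∧ ε ≤ g / 2 :=
    ⟨min ε' (g / 2), lt_min hε' (by linarith), min_le_left _ _, min_le_right _ _⟩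
  obtain ⟨w0, hw0⟩ := mer hSQP hM3S (ε / 2) (by linarith)
  obtain ⟨K1, hK1⟩ := exists_nat_ge (16 / ε ^ 2)
  refine ⟨max (2 ^ w0 + 1) (K1 + 1), fun n k hn h hk => ?_⟩
  have k1 : 2 ^ w0 + 1 ≤ k := (le_max_left _ _).trans hk
  have k2 : K1 + 1 ≤ k := (le_max_right _ _).trans hk
  have hk0 : k ≠ 0 := by omega
  have hn0 : (0 : ℝ) < n := by exact_mod_cast Nat.pos_of_ne_zero hn
  have hkR : (1 : ℝ) ≤ k := by exact_mod_cast (by omega : 1 ≤ k)
  -- `k ≤ ∏ (1 - 1/p)⁻¹`
  have h1 : (k : ℝ) ≤ ∏ p ∈ n.primeFactors, (1 - 1 / (p : ℝ))⁻¹ := by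
    have h2 := hAUP n (Nat.pos_of_ne_zero hn)
    have h3 : (sg n : ℝ) / n = k := by
      rw [sg, h]
      push_cast
      field_simp
    rwa [h3] at h2
  have hw : w0 ≤ n.primeFactors.card := by
    by_contra hlt
    have h2 := h1.trans (le_two_pow n)
    have h3 : (2 : ℝ) ^ n.primeFactors.card ≤ 2 ^ w0 :=
      pow_le_pow_right₀ (by norm_num) (by omega)
    have h4 : ((2 ^ w0 + 1 : ℕ) : ℝ) ≤ k := by exact_mod_cast k1
    push_cast at h4
    linarith
  have h2 := h1.trans (hw0 n hw)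
  set w := n.primeFactors.card with hwdef
  -- `log w ≥ (g - ε/2) k`
  have h3 : (g - ε / 2) * k ≤ Real.log w := by
    have e1 : 0 < G + ε / 2 := by linarith
    have hgG : g ≤ G := by
      rw [hG, hg]
      exact Real.exp_le_exp.2 (by linarith [Real.one_half_lt_eulerMascheroniConstant])
    have e2 : (g - ε / 2) * (G + ε / 2) ≤ 1 := by
      have e0 : (g - ε / 2) * (G + ε / 2) = G * g - ε / 2 * (G - g) - ε ^ 2 / 4 := by ring
      rw [e0, hGg]
      have e9 : 0 ≤ ε / 2 * (G - g) := mul_nonneg (by linarith) (by linarith)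
      have e8 : 0 ≤ ε ^ 2 / 4 := by positivity
      linarith
    have e3 : (g - ε / 2) * (k : ℝ) ≤ (g - ε / 2) * ((G + ε / 2) * Real.log w) := by
      apply mul_le_mul_of_nonneg_left h2
      linarith
    have hlw : 0 ≤ Real.log w := by
      have : 0 < (G + ε / 2) * Real.log w := by linarith
      exact (pos_of_mul_pos_right this e1.le).le
    nlinarith
  have hwpos : (0 : ℝ) < w := by
    have : w ≠ 0 := by
      intro h0
      rw [h0] at h2
      simp at h2
      linarith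
    exact_mod_cast Nat.pos_of_ne_zero this
  have h4 : Real.exp ((g - ε / 2) * k) ≤ w := by
    rw [← Real.le_log_iff_exp_le hwpos]
    exact h3
  have h5 : (w : ℝ) ≤ W n + k + 1 := by
    exact_mod_cast card_le n k hn hk0 h
  -- `exp (ε k / 2) ≥ k + 2`
  have h6 : (k : ℝ) + 2 ≤ Real.exp (ε / 2 * k) := by
    have e1 := Real.quadratic_le_exp_of_nonneg (show 0 ≤ ε / 2 * (k : ℝ) by positivity)
    have e2 : 16 / ε ^ 2 ≤ k := hK1.trans (by exact_mod_cast (by omega : K1 ≤ k))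
    have e3 : 16 ≤ k * ε ^ 2 := by rwa [div_le_iff₀ (by positivity)] at e2
    have e4 : 2 * (k : ℝ) ≤ (ε / 2 * k) ^ 2 / 2 := by nlinarith
    have e5 : 0 ≤ ε / 2 * (k : ℝ) := by positivity
    linarith
  have h7 : Real.exp ((g - ε / 2) * k) = Real.exp ((g - ε) * k) * Real.exp (ε / 2 * k) := by
    rw [← Real.exp_add]
    congr 1
    ring
  have h8 : 1 ≤ Real.exp ((g - ε) * k) := Real.one_le_exp (mul_nonneg (by linarith) (by linarith))
  have h9 : Real.exp ((g - ε') * k) ≤ Real.exp ((g - ε) * k) := by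
    apply Real.exp_le_exp.2
    apply mul_le_mul_of_nonneg_right _ (by linarith)
    linarith
  rw [h7] at h4
  nlinarith

end Pool.V2
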