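import Pool.Agent.Work.MP_495a89_gro.Interface

/-!
# MP_495a89_nt, 2-adic form: the number of prime factors of a multiperfect number
-/

set_option autoImplicit false

namespace Pool.V2

open Finset Pool.GRO

/-- `v_2(n) +` the number of the primes with an even exponent in `n` -/
def W (n : ℕ) : ℕ :=
  n.factorization 2 + (n.primeFactors.filter (fun p => Even (n.factorization p))).card

/-- the odd primes with an odd exponent -/
def O (n : ℕ) : Finset ℕ := n.primeFactors.filter (fun p => p ≠ 2 ∧ ¬ Even (n.factorization p))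

theorem two_dvd {p e : ℕ} (hp : p.Prime) (h2 : p ≠ 2) (he : ¬ Even e) :
    2 ∣ ∑ i ∈ range (e + 1), p ^ i := by
  have hodd : Odd p := hp.odd_of_ne_two h2
  have h1 : (∑ i ∈ range (e + 1), p ^ i) % 2 = (e + 1) % 2 := by
    rw [Finset.sum_nat_mod]
    have : ∀ i ∈ range (e + 1), p ^ i % 2 = 1 := fun i _ => Nat.odd_iff.1 (hodd.pow)
    rw [Finset.sum_congr rfl this]
    simp
  rw [Nat.not_even_iff_odd, Nat.odd_iff] at he
  omega

theorem pow_dvd (n : ℕ) (hn : n ≠ 0) : 2 ^ (O n).card ∣ ∑ d ∈ n.divisors, d := by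
  rw [Nat.sum_divisors hn, ← Finset.prod_const]
  refine (Finset.prod_dvd_prod_of_dvd _ (fun p => ∑ i ∈ range (n.factorization p + 1), p ^ i) ?_).trans
    (Finset.prod_dvd_prod_of_subset _ _ _ (Finset.filter_subset _ _))
  intro p hp
  rw [O, mem_filter] at hp
  exact two_dvd (Nat.prime_of_mem_primeFactors hp.1) hp.2.1 hp.2.2

theorem card_O (n k : ℕ) (hn : n ≠ 0) (hk : k ≠ 0) (h : ∑ d ∈ n.divisors, d = k * n) :
    (O n).card ≤ n.factorization 2 + k := by
  have h1 := pow_dvd n hn
  rw [h] at h1
  have h2 : (O n).card ≤ (k * n).factorization 2 :=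
    (Nat.Prime.pow_dvd_iff_le_factorization Nat.prime_two (mul_ne_zero hk hn)).1 h1
  rw [Nat.factorization_mul hk hn, Finsupp.add_apply] at h2
  have h3 : k.factorization 2 ≤ k := (Nat.factorization_lt 2 hk).le
  omega

theorem card_le (n k : ℕ) (hn : n ≠ 0) (hk : k ≠ 0) (h : ∑ d ∈ n.divisors, d = k * n) :
    n.primeFactors.card ≤ W n + k + 1 := by
  have h1 := card_O n k hn hk h
  have h2 : n.primeFactors ⊆ (O n ∪ n.primeFactors.filter (fun p => Even (n.factorization p))) ∪ {2} := by
    intro p hp
    simp only [O, mem_union, mem_filter, mem_singleton]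
    by_cases h2 : p = 2
    · exact Or.inr h2
    · by_cases he : Even (n.factorization p)
      · exact Or.inl (Or.inr ⟨hp, he⟩)
      · exact Or.inl (Or.inl ⟨hp, h2, he⟩)
  have h3 := Finset.card_le_card h2
  have h4 := Finset.card_union_le (O n ∪ n.primeFactors.filter (fun p => Even (n.factorization p))) {2}
  have h5 := Finset.card_union_le (O n) (n.primeFactors.filter (fun p => Even (n.factorization p)))
  rw [Finset.card_singleton] at h4
  unfold W
  omega

end Pool.V2
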